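import Pool.Agent.H608R5.KL.Stm

/-!
Project KL, job 5738 (helper969): the total deviation from the mean of the first group.
-/

set_option autoImplicit false

namespace Pool.Agent.TH969.KL

open Pool.Agent.H608R5.KL Finset

theorem sum_sq {M : ℕ} (hM : 1 ≤ M) (f : I M → ℝ) (c : ℝ) :
    ∑ x, (f x - c) ^ 2 = vr f + 2 * M * (mu f - c) ^ 2 := by
  have hM0 : (0 : ℝ) < M := by exact_mod_cast hM
  have hcard : (Fintype.card (I M) : ℝ) = 2 * M := by
    rw [Fintype.card_prod, Fintype.card_bool, Fintype.card_fin]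
    push_cast
    ring
  have hmu : ∑ x, f x = 2 * M * mu f := by
    unfold mu
    field_simp
  have h0 : ∑ x, (f x - mu f) = 0 := by
    rw [sum_sub_distrib, hmu, sum_const, card_univ, nsmul_eq_mul, hcard]
    ring
  unfold vr
  have h1 : ∀ x, (f x - c) ^ 2 = (f x - mu f) ^ 2 + 2 * (mu f - c) * (f x - mu f) +
      (mu f - c) ^ 2 := by
    intro x
    ring
  rw [sum_congr rfl fun x _ => h1 x, sum_add_distrib, sum_add_distrib, ← mul_sum, h0, sum_const,
    card_univ, nsmul_eq_mul, hcard]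
  ring

theorem four_sq (a b c d : ℝ) : (a + b + c + d) ^ 2 ≤ 4 * (a ^ 2 + b ^ 2 + c ^ 2 + d ^ 2) := by
  nlinarith [sq_nonneg (a - b), sq_nonneg (a - c), sq_nonneg (a - d), sq_nonneg (b - c),
    sq_nonneg (b - d), sq_nonneg (c - d)]

theorem t_K4 : S_K4 := by
  intro M hM A B
  have hM0 : (0 : ℝ) < M := by exact_mod_cast hM
  have hs : ∀ g : ZMod 4 → ℝ, ∑ a, g a = g 0 + g 1 + g 2 + g 3 := fun g => Fin.sum_univ_four g
  have e0 : (0 : ZMod 4) - 1 = 3 := by decide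
  have e1 : (1 : ZMod 4) - 1 = 0 := by decide
  have e2 : (2 : ZMod 4) - 1 = 1 := by decide
  have e3 : (3 : ZMod 4) - 1 = 2 := by decide
  have hL : ∀ a : ZMod 4, ∑ x, ((A a x - mu (A 0)) ^ 2 + (B a x - mu (A 0)) ^ 2) =
      (vr (A a) + vr (B a)) + 2 * M * ((mu (A a) - mu (A 0)) ^ 2 + (mu (B a) - mu (A 0)) ^ 2) := by
    intro a
    rw [sum_add_distrib, sum_sq hM, sum_sq hM]
    ring
  rw [sum_congr rfl fun a _ => hL a, sum_add_distrib, ← mul_sum]
  have key : ∑ a : ZMod 4, ((mu (A a) - mu (A 0)) ^ 2 + (mu (B a) - mu (A 0)) ^ 2) ≤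
      64 * ∑ a : ZMod 4, ((mu (A a) - mu (B a)) ^ 2 + (mu (A a) - mu (B (a - 1))) ^ 2) := by
    rw [hs, hs, e0, e1, e2, e3]
    generalize mu (A 0) = a0
    generalize mu (A 1) = a1
    generalize mu (A 2) = a2
    generalize mu (A 3) = a3
    generalize mu (B 0) = b0
    generalize mu (B 1) = b1
    generalize mu (B 2) = b2
    generalize mu (B 3) = b3
    have k1 := four_sq (-(a0 - b0)) (a1 - b0) 0 0
    have k2 := four_sq (-(a0 - b0)) (a1 - b0) (-(a1 - b1)) 0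
    have k3 := four_sq (-(a0 - b0)) (a1 - b0) (-(a1 - b1)) (a2 - b1)
    have k4 := four_sq (-(a0 - b3)) (a3 - b3) (-(a3 - b2)) 0
    have k5 := four_sq (-(a0 - b3)) (a3 - b3) 0 0
    have f1 : -(a0 - b0) + (a1 - b0) + 0 + 0 = a1 - a0 := by ring
    have f2 : -(a0 - b0) + (a1 - b0) + -(a1 - b1) + 0 = b1 - a0 := by ring
    have f3 : -(a0 - b0) + (a1 - b0) + -(a1 - b1) + (a2 - b1) = a2 - a0 := by ring
    have f4 : -(a0 - b3) + (a3 - b3) + -(a3 - b2) + 0 = b2 - a0 := by ring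
    have f5 : -(a0 - b3) + (a3 - b3) + 0 + 0 = a3 - a0 := by ring
    rw [f1] at k1
    rw [f2] at k2
    rw [f3] at k3
    rw [f4] at k4
    rw [f5] at k5
    nlinarith [sq_nonneg (a0 - b0), sq_nonneg (a1 - b1), sq_nonneg (a2 - b2), sq_nonneg (a3 - b3),
      sq_nonneg (a0 - b3), sq_nonneg (a1 - b0), sq_nonneg (a2 - b1), sq_nonneg (a3 - b2)]
  have h2 := mul_le_mul_of_nonneg_left key (by positivity : (0 : ℝ) ≤ 2 * M)
  linarith

end Pool.Agent.TH969.KL
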